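import Mathlib
import Pool.Agent.H19.RadF

set_option autoImplicit false
set_option linter.unusedSectionVars false

namespace Pool.Agent.Results.MP_bb0bb6_co.Large

open Finset Pool.Agent.H19.Rad

/-- (A, B) is a Radon partition of the union of A and B -/
def IsRadon {d : ℕ} (A B : Finset (Fin d → ℝ)) : Prop :=
  Disjoint A B ∧ (convexHull ℝ (A : Set (Fin d → ℝ)) ∩ convexHull ℝ (B : Set (Fin d → ℝ))).Nonempty

/-- a Radon partition in S that extends no Radon partition other than itself -/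
def Primitive {d : ℕ} (S A B : Finset (Fin d → ℝ)) : Prop :=
  A ⊆ S ∧ B ⊆ S ∧ IsRadon A B ∧
    ∀ A' B' : Finset (Fin d → ℝ), IsRadon A' B' → A' ⊆ A → B' ⊆ B → s(A', B') = s(A, B)

/-- number of primitive Radon partitions in S, as unordered pairs -/
noncomputable def numPrim {d : ℕ} (S : Finset (Fin d → ℝ)) : ℕ :=
  Set.ncard {X : Sym2 (Finset (Fin d → ℝ)) | ∃ A B, X = s(A, B) ∧ Primitive S A B}

/-- the minimum number of primitive Radon partitions of s points in d-space -/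
noncomputable def minPrim (d s : ℕ) : ℕ :=
  sInf {n : ℕ | ∃ S : Finset (Fin d → ℝ), S.card = s ∧ numPrim S = n}

/-- number of points of S on the line through a and b -/
noncomputable def onLine {d : ℕ} (S : Finset (Fin d → ℝ)) (a b : Fin d → ℝ) : ℕ :=
  Set.ncard {x | x ∈ S ∧ x ∈ affineSpan ℝ ({a, b} : Set (Fin d → ℝ))}

/-- S lies on k skew lines and is split between them as evenly as possible -/
def OddExtremal {d : ℕ} (k : ℕ) (S : Finset (Fin d → ℝ)) : Prop :=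
  ∃ a b : Fin k → (Fin d → ℝ), AffineIndependent ℝ (Sum.elim a b) ∧
    (∀ x ∈ S, ∃ i, x ∈ affineSpan ℝ ({a i, b i} : Set (Fin d → ℝ))) ∧
    ∀ i, S.card / k ≤ onLine S (a i) (b i) ∧ onLine S (a i) (b i) ≤ S.card / k + 1

/-- S is two points p, q together with points split evenly between k skew lines, p is off the span of
the lines, and the line pq passes through a point c of S, other than q, on a smallest line -/
def EvenExtremal {d : ℕ} (k : ℕ) (S : Finset (Fin d → ℝ)) : Prop :=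
  ∃ (a b : Fin k → (Fin d → ℝ)) (p q c : Fin d → ℝ) (i₀ : Fin k),
    AffineIndependent ℝ (Sum.elim (Sum.elim a b) (fun _ : Unit => p)) ∧
    p ∈ S ∧ q ∈ S ∧ c ∈ S ∧ p ≠ q ∧ c ≠ q ∧ c ∈ affineSpan ℝ ({p, q} : Set (Fin d → ℝ)) ∧
    c ∈ affineSpan ℝ ({a i₀, b i₀} : Set (Fin d → ℝ)) ∧
    (∀ x ∈ S, x = p ∨ x = q ∨ ∃ i, x ∈ affineSpan ℝ ({a i, b i} : Set (Fin d → ℝ))) ∧
    onLine S (a i₀) (b i₀) = (S.card - 2) / k ∧
    ∀ i, (S.card - 2) / k ≤ onLine S (a i) (b i) ∧ onLine S (a i) (b i) ≤ (S.card - 2) / k + 1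

section aux

variable {d : ℕ}

/-- affine dependence -/
def ADep (T : Finset (Fin d → ℝ)) : Prop :=
  ∃ c : (Fin d → ℝ) → ℝ, (∃ x ∈ T, c x ≠ 0) ∧ ∑ x ∈ T, c x = 0 ∧ ∑ x ∈ T, c x • x = 0

/-- homogenization -/
def lift (x : Fin d → ℝ) : ℝ × (Fin d → ℝ) := (1, x)

lemma lift_inj : Function.Injective (lift (d := d)) := fun _ _ h => congrArg Prod.snd h

lemma dep_lift (T : Finset (Fin d → ℝ)) : Dep (T.image lift) ↔ ADep T := by
  constructor
  · rintro ⟨c, ⟨x, hx, hc⟩, hs⟩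
    obtain ⟨y, hy, rfl⟩ := Finset.mem_image.1 hx
    rw [Finset.sum_image (fun a _ b _ h => lift_inj h)] at hs
    refine ⟨fun x => c (lift x), ⟨y, hy, hc⟩, ?_, ?_⟩
    · have := congrArg Prod.fst hs
      simpa [Prod.fst_sum, lift] using this
    · have := congrArg Prod.snd hs
      simpa [Prod.snd_sum, lift] using this
  · rintro ⟨c, ⟨x, hx, hc⟩, h1, h2⟩
    refine ⟨fun v => c v.2, ⟨lift x, Finset.mem_image_of_mem _ hx, hc⟩, ?_⟩
    rw [Finset.sum_image (fun a _ b _ h => lift_inj h)]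
    refine Prod.ext ?_ ?_
    · simpa [Prod.fst_sum, lift] using h1
    · simpa [Prod.snd_sum, lift] using h2

/-- minimal affinely dependent set -/
def ACirc (T : Finset (Fin d → ℝ)) : Prop := ADep T ∧ ∀ U, U ⊂ T → ¬ ADep U

lemma circ_lift (T : Finset (Fin d → ℝ)) : Circ (T.image lift) ↔ ACirc T := by
  unfold Circ ACirc
  rw [dep_lift]
  refine and_congr_right (fun _ => ⟨fun h U hU hd => ?_, fun h U hU hd => ?_⟩)
  · exact h (U.image lift) ((Finset.image_ssubset_image lift_inj).2 hU) ((dep_lift U).2 hd)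
  · obtain ⟨U', -, rfl⟩ := Finset.subset_image_iff.1 hU.subset
    exact h U' ((Finset.image_ssubset_image lift_inj).1 hU) ((dep_lift U').1 hd)

lemma ADep.of_vanish {T : Finset (Fin d → ℝ)} {c : (Fin d → ℝ) → ℝ} {x0 : Fin d → ℝ} (hx0 : x0 ∈ T)
    (h0 : c x0 = 0) (hne : ∃ x ∈ T, c x ≠ 0) (h1 : ∑ x ∈ T, c x = 0)
    (h2 : ∑ x ∈ T, c x • x = 0) : ADep (T.erase x0) := by
  obtain ⟨y, hy, hcy⟩ := hne
  refine ⟨c, ⟨y, Finset.mem_erase.2 ⟨?_, hy⟩, hcy⟩, ?_, ?_⟩
  · rintro rfl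
    exact hcy h0
  · rwa [← Finset.add_sum_erase T c hx0, h0, zero_add] at h1
  · rwa [← Finset.add_sum_erase T (fun x => c x • x) hx0, h0, zero_smul, zero_add] at h2

lemma radon_dep {A B : Finset (Fin d → ℝ)} (h : IsRadon A B) :
    ∃ c : (Fin d → ℝ) → ℝ, (∀ x ∈ A, 0 ≤ c x) ∧ (∀ x ∈ B, c x ≤ 0) ∧ (∃ x ∈ A, c x ≠ 0) ∧
      ∑ x ∈ A ∪ B, c x = 0 ∧ ∑ x ∈ A ∪ B, c x • x = 0 := by
  obtain ⟨hd, z, hzA, hzB⟩ := h
  obtain ⟨a, ha0, ha1, ha2⟩ := Finset.mem_convexHull'.1 hzA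
  obtain ⟨b, hb0, hb1, hb2⟩ := Finset.mem_convexHull'.1 hzB
  have hB : ∀ x ∈ B, x ∉ A := fun x hx hA => Finset.disjoint_left.1 hd hA hx
  refine ⟨fun x => if x ∈ A then a x else - b x, fun x hx => by simpa [hx] using ha0 x hx,
    fun x hx => by simpa [hB x hx] using hb0 x hx, ?_, ?_, ?_⟩
  · by_contra hn
    push Not at hn
    have : ∑ x ∈ A, a x = 0 := Finset.sum_eq_zero (fun x hx => by simpa [hx] using hn x hx)
    rw [this] at ha1
    exact zero_ne_one ha1
  · rw [Finset.sum_union hd, Finset.sum_congr rfl (g := a) (fun x hx => by simp [hx]),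
      Finset.sum_congr rfl (s₁ := B) (g := fun x => - b x) (fun x hx => by simp [hB x hx]),
      Finset.sum_neg_distrib, ha1, hb1, add_neg_cancel]
  · rw [Finset.sum_union hd, Finset.sum_congr rfl (g := fun x => a x • x) (fun x hx => by simp [hx]),
      Finset.sum_congr rfl (s₁ := B) (g := fun x => - (b x • x)) (fun x hx => by simp [hB x hx]),
      Finset.sum_neg_distrib, ha2, hb2, add_neg_cancel]

lemma dep_radon {T : Finset (Fin d → ℝ)} {c : (Fin d → ℝ) → ℝ} (hne : ∃ x ∈ T, c x ≠ 0)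
    (h1 : ∑ x ∈ T, c x = 0) (h2 : ∑ x ∈ T, c x • x = 0) :
    IsRadon (T.filter (fun x => 0 < c x)) (T.filter (fun x => c x < 0)) := by
  have split : ∀ {M : Type} [AddCommMonoid M] (F : (Fin d → ℝ) → M), (∀ x, c x = 0 → F x = 0) →
      ∑ x ∈ T, F x = ∑ x ∈ T.filter (fun x => 0 < c x), F x +
        ∑ x ∈ T.filter (fun x => c x < 0), F x := by
    intro M _ F hF
    rw [Finset.sum_filter, Finset.sum_filter, ← Finset.sum_add_distrib]
    refine Finset.sum_congr rfl (fun x _ => ?_)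
    rcases lt_trichotomy (c x) 0 with h | h | h
    · simp [h, not_lt.2 h.le]
    · simp [h, hF x h]
    · simp [h, not_lt.2 h.le]
  rw [split c (fun _ h => h)] at h1
  rw [split (fun x => c x • x) (fun x h => by simp [h])] at h2
  set σ := ∑ x ∈ T.filter (fun x => 0 < c x), c x with hσ
  have hpos : 0 < σ := by
    obtain ⟨x, hx, hc⟩ := hne
    rcases lt_or_gt_of_ne hc with h | h
    · have : ∑ x ∈ T.filter (fun x => c x < 0), c x < 0 :=
        Finset.sum_neg (fun y hy => (Finset.mem_filter.1 hy).2) ⟨x, Finset.mem_filter.2 ⟨hx, h⟩⟩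
      linarith
    · exact Finset.sum_pos (fun y hy => (Finset.mem_filter.1 hy).2) ⟨x, Finset.mem_filter.2 ⟨hx, h⟩⟩
  refine ⟨?_, σ⁻¹ • ∑ x ∈ T.filter (fun x => 0 < c x), c x • x, ?_, ?_⟩
  · rw [Finset.disjoint_filter]
    intro x _ h
    exact not_lt.2 h.le
  · refine Finset.mem_convexHull'.2 ⟨fun x => σ⁻¹ * c x, fun y hy => ?_, ?_, ?_⟩
    · exact mul_nonneg (inv_nonneg.2 hpos.le) (Finset.mem_filter.1 hy).2.le
    · rw [← Finset.mul_sum, inv_mul_cancel₀ hpos.ne']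
    · rw [Finset.smul_sum]
      exact Finset.sum_congr rfl (fun x _ => by rw [smul_smul])
  · refine Finset.mem_convexHull'.2 ⟨fun x => σ⁻¹ * (- c x), fun y hy => ?_, ?_, ?_⟩
    · exact mul_nonneg (inv_nonneg.2 hpos.le) (neg_nonneg.2 (Finset.mem_filter.1 hy).2.le)
    · rw [← Finset.mul_sum, Finset.sum_neg_distrib, ← eq_neg_of_add_eq_zero_left h1,
        inv_mul_cancel₀ hpos.ne']
    · rw [eq_neg_of_add_eq_zero_left h2, ← Finset.sum_neg_distrib, Finset.smul_sum]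
      exact Finset.sum_congr rfl (fun x _ => by rw [← neg_smul, smul_smul])

lemma Primitive.eq {S A B : Finset (Fin d → ℝ)} (h : Primitive S A B) {A' B' : Finset (Fin d → ℝ)}
    (hr : IsRadon A' B') (hA : A' ⊆ A) (hB : B' ⊆ B) : A' = A ∧ B' = B := by
  rcases Sym2.eq_iff.1 (h.2.2.2 A' B' hr hA hB) with h1 | ⟨h1, h2⟩
  · exact h1
  · exfalso
    obtain ⟨c, -, -, ⟨x, hx, -⟩, -⟩ := radon_dep h.2.2.1
    exact Finset.disjoint_left.1 h.2.2.1.1 hx (hB (h2 ▸ hx))

lemma Primitive.sign {S A B : Finset (Fin d → ℝ)} (h : Primitive S A B) {c : (Fin d → ℝ) → ℝ}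
    (hA : ∀ x ∈ A, 0 ≤ c x) (hB : ∀ x ∈ B, c x ≤ 0) (hne : ∃ x ∈ A ∪ B, c x ≠ 0)
    (h1 : ∑ x ∈ A ∪ B, c x = 0) (h2 : ∑ x ∈ A ∪ B, c x • x = 0) :
    (A ∪ B).filter (fun x => 0 < c x) = A ∧ (A ∪ B).filter (fun x => c x < 0) = B := by
  refine h.eq (dep_radon hne h1 h2) ?_ ?_
  · intro x hx
    obtain ⟨h3, h4⟩ := Finset.mem_filter.1 hx
    rcases Finset.mem_union.1 h3 with h5 | h5
    · exact h5
    · exact absurd (hB x h5) (not_le.2 h4)
  · intro x hx
    obtain ⟨h3, h4⟩ := Finset.mem_filter.1 hx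
    rcases Finset.mem_union.1 h3 with h5 | h5
    · exact absurd (hA x h5) (not_le.2 h4)
    · exact h5

lemma Primitive.dep {S A B : Finset (Fin d → ℝ)} (h : Primitive S A B) :
    ∃ c : (Fin d → ℝ) → ℝ, (∀ x ∈ A, 0 < c x) ∧ (∀ x ∈ B, c x < 0) ∧ A.Nonempty ∧
      ∑ x ∈ A ∪ B, c x = 0 ∧ ∑ x ∈ A ∪ B, c x • x = 0 := by
  obtain ⟨c, hA, hB, ⟨x, hx, hc⟩, h1, h2⟩ := radon_dep h.2.2.1
  obtain ⟨e1, e2⟩ := h.sign hA hB ⟨x, Finset.mem_union_left _ hx, hc⟩ h1 h2
  refine ⟨c, fun y hy => ?_, fun y hy => ?_, ⟨x, hx⟩, h1, h2⟩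
  · rw [← e1] at hy; exact (Finset.mem_filter.1 hy).2
  · rw [← e2] at hy; exact (Finset.mem_filter.1 hy).2

lemma Primitive.circ {S A B : Finset (Fin d → ℝ)} (h : Primitive S A B) : ACirc (A ∪ B) := by
  obtain ⟨c, hA, hB, ⟨x1, hx1⟩, h1, h2⟩ := h.dep
  have hc : ∀ x ∈ A ∪ B, c x ≠ 0 := fun x hx => by
    rcases Finset.mem_union.1 hx with h3 | h3
    · exact (hA x h3).ne'
    · exact (hB x h3).ne
  refine ⟨⟨c, ⟨x1, Finset.mem_union_left _ hx1, (hA x1 hx1).ne'⟩, h1, h2⟩, ?_⟩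
  rintro U hU ⟨m, ⟨y, hy, hmy⟩, m1, m2⟩
  set μ : (Fin d → ℝ) → ℝ := fun x => if x ∈ U then m x else 0 with hμ
  have μ1 : ∑ x ∈ A ∪ B, μ x = 0 := by
    rw [← Finset.sum_subset hU.subset (f := μ) (fun x _ hx => by simp [hμ, hx]), ← m1]
    exact Finset.sum_congr rfl (fun x hx => by simp [hμ, hx])
  have μ2 : ∑ x ∈ A ∪ B, μ x • x = 0 := by
    rw [← Finset.sum_subset hU.subset (f := fun x => μ x • x) (fun x _ hx => by simp [hμ, hx]), ← m2]
    exact Finset.sum_congr rfl (fun x hx => by simp [hμ, hx])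
  obtain ⟨x0, hx0, hmax⟩ := Finset.exists_max_image (A ∪ B) (fun x => |μ x / c x|)
    ⟨x1, Finset.mem_union_left _ hx1⟩
  set r := μ x0 / c x0 with hr
  have hr0 : r ≠ 0 := by
    intro e
    have h3 := hmax y (hU.subset hy)
    rw [e, abs_zero] at h3
    have h4 : μ y / c y = 0 := abs_nonpos_iff.1 h3
    have h5 : μ y = m y := by simp [hμ, hy]
    rw [h5] at h4
    exact div_ne_zero hmy (hc y (hU.subset hy)) h4
  have hfac : ∀ x ∈ A ∪ B, ∃ t : ℝ, 0 ≤ t ∧ c x - μ x / r = t * c x := by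
    intro x hx
    refine ⟨1 - μ x / c x / r, ?_, ?_⟩
    · have h3 := hmax x hx
      have h4 : μ x / c x / r ≤ 1 := by
        refine (le_abs_self _).trans ?_
        rw [abs_div, div_le_one (abs_pos.2 hr0)]
        exact h3
      linarith
    · have := hc x hx
      field_simp
  obtain ⟨z, hz, hzU⟩ := Finset.exists_of_ssubset hU
  obtain ⟨e1, e2⟩ := h.sign (c := fun x => c x - μ x / r) (fun x hx => by
      obtain ⟨t, ht, e⟩ := hfac x (Finset.mem_union_left _ hx)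
      rw [e]; exact mul_nonneg ht (hA x hx).le) (fun x hx => by
      obtain ⟨t, ht, e⟩ := hfac x (Finset.mem_union_right _ hx)
      rw [e]; exact mul_nonpos_of_nonneg_of_nonpos ht (hB x hx).le)
    ⟨z, hz, by simpa [hμ, hzU] using hc z hz⟩
    (by rw [Finset.sum_sub_distrib, ← Finset.sum_div, h1, μ1]; simp)
    (by
      simp only [sub_smul, div_eq_inv_mul, mul_smul]
      rw [Finset.sum_sub_distrib, ← Finset.smul_sum, h2, μ2]; simp)
  have h0 : c x0 - μ x0 / r = 0 := by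
    have h3 := hc x0 hx0
    have h4 : μ x0 = r * c x0 := by rw [hr]; field_simp
    rw [h4]; field_simp; ring
  rcases Finset.mem_union.1 hx0 with h3 | h3
  · rw [← e1] at h3
    exact (Finset.mem_filter.1 h3).2.ne' h0
  · rw [← e2] at h3
    exact (Finset.mem_filter.1 h3).2.ne h0

lemma prim_unique {S A B A' B' : Finset (Fin d → ℝ)} (h : Primitive S A B) (h' : Primitive S A' B')
    (e : A ∪ B = A' ∪ B') : s(A, B) = s(A', B') := by
  obtain ⟨c, hA, hB, ⟨x0, hx0⟩, h1, h2⟩ := h.dep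
  obtain ⟨c', hA', hB', -, h1', h2'⟩ := h'.dep
  rw [← e] at h1' h2'
  have hx0' : x0 ∈ A ∪ B := Finset.mem_union_left _ hx0
  have hc0 := hA x0 hx0
  set t := c' x0 / c x0 with ht
  have hprop : ∀ x ∈ A ∪ B, c' x = t * c x := by
    by_contra hn
    push Not at hn
    obtain ⟨x, hx, hne⟩ := hn
    refine h.circ.2 _ (Finset.erase_ssubset hx0') (ADep.of_vanish (c := fun x => c' x - t * c x) hx0'
      (by rw [ht]; field_simp; ring) ⟨x, hx, sub_ne_zero.2 hne⟩ ?_ ?_)
    · rw [Finset.sum_sub_distrib, ← Finset.mul_sum, h1, h1']; simp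
    · simp only [sub_smul, mul_smul]
      rw [Finset.sum_sub_distrib, ← Finset.smul_sum, h2, h2']; simp
  have hmA : ∀ x, x ∈ A ↔ x ∈ A ∪ B ∧ 0 < c x := fun x => ⟨fun hx => ⟨Finset.mem_union_left _ hx,
    hA x hx⟩, fun hx => (Finset.mem_union.1 hx.1).resolve_right
      (fun hb => lt_asymm hx.2 (hB x hb))⟩
  have hmB : ∀ x, x ∈ B ↔ x ∈ A ∪ B ∧ c x < 0 := fun x => ⟨fun hx => ⟨Finset.mem_union_right _ hx,
    hB x hx⟩, fun hx => (Finset.mem_union.1 hx.1).resolve_left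
      (fun hb => lt_asymm hx.2 (hA x hb))⟩
  have hmA' : ∀ x, x ∈ A' ↔ x ∈ A ∪ B ∧ 0 < c' x := fun x => ⟨fun hx => ⟨e ▸ Finset.mem_union_left _ hx,
    hA' x hx⟩, fun hx => (Finset.mem_union.1 (e ▸ hx.1)).resolve_right
      (fun hb => lt_asymm hx.2 (hB' x hb))⟩
  have hmB' : ∀ x, x ∈ B' ↔ x ∈ A ∪ B ∧ c' x < 0 := fun x => ⟨fun hx => ⟨e ▸ Finset.mem_union_right _ hx,
    hB' x hx⟩, fun hx => (Finset.mem_union.1 (e ▸ hx.1)).resolve_left
      (fun hb => lt_asymm hx.2 (hA' x hb))⟩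
  have ht0 : t ≠ 0 := by
    intro e0
    have h3 := hprop x0 hx0'
    rw [e0, zero_mul] at h3
    rcases Finset.mem_union.1 (e ▸ hx0') with h4 | h4
    · exact (hA' x0 h4).ne' h3
    · exact (hB' x0 h4).ne h3
  rw [Sym2.eq_iff]
  rcases lt_or_gt_of_ne ht0 with hneg | hpos
  · right
    constructor
    · ext x
      rw [hmA, hmB']
      refine and_congr_right (fun hx => ?_)
      rw [hprop x hx]
      constructor <;> intro hh <;> nlinarith
    · ext x
      rw [hmB, hmA']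
      refine and_congr_right (fun hx => ?_)
      rw [hprop x hx]
      constructor <;> intro hh <;> nlinarith
  · left
    constructor
    · ext x
      rw [hmA, hmA']
      refine and_congr_right (fun hx => ?_)
      rw [hprop x hx]
      constructor <;> intro hh <;> nlinarith
    · ext x
      rw [hmB, hmB']
      refine and_congr_right (fun hx => ?_)
      rw [hprop x hx]
      constructor <;> intro hh <;> nlinarith

lemma circ_prim {S T : Finset (Fin d → ℝ)} (hT : T ⊆ S) (h : ACirc T) :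
    ∃ A B, Primitive S A B ∧ A ∪ B = T := by
  obtain ⟨c, hne, h1, h2⟩ := h.1
  have hfull : ∀ x ∈ T, c x ≠ 0 := fun x hx h0 =>
    h.2 _ (Finset.erase_ssubset hx) (ADep.of_vanish hx h0 hne h1 h2)
  have hr := dep_radon hne h1 h2
  have hU : T.filter (fun x => 0 < c x) ∪ T.filter (fun x => c x < 0) = T := by
    ext x
    simp only [Finset.mem_union, Finset.mem_filter]
    constructor
    · rintro (h3 | h3) <;> exact h3.1
    · intro hx
      rcases lt_or_gt_of_ne (hfull x hx) with h3 | h3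
      · exact Or.inr ⟨hx, h3⟩
      · exact Or.inl ⟨hx, h3⟩
  refine ⟨_, _, ⟨(Finset.filter_subset _ _).trans hT, (Finset.filter_subset _ _).trans hT, hr, ?_⟩, hU⟩
  intro A' B' hr' hA hB
  obtain ⟨c', -, -, ⟨x, hx, hc'⟩, g1, g2⟩ := radon_dep hr'
  have hsub : A' ∪ B' ⊆ T := hU ▸ Finset.union_subset_union hA hB
  have e : A' ∪ B' = T := by
    by_contra hn
    exact h.2 _ (Finset.ssubset_iff_subset_ne.2 ⟨hsub, hn⟩)
      ⟨c', ⟨x, Finset.mem_union_left _ hx, hc'⟩, g1, g2⟩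
  have e1 : A' = T.filter (fun x => 0 < c x) := by
    refine Finset.Subset.antisymm hA (fun y hy => ?_)
    have h3 : y ∈ A' ∪ B' := e ▸ (Finset.mem_filter.1 hy).1
    exact (Finset.mem_union.1 h3).resolve_right
      (fun h4 => Finset.disjoint_left.1 hr.1 hy (hB h4))
  have e2 : B' = T.filter (fun x => c x < 0) := by
    refine Finset.Subset.antisymm hB (fun y hy => ?_)
    have h3 : y ∈ A' ∪ B' := e ▸ (Finset.mem_filter.1 hy).1
    exact (Finset.mem_union.1 h3).resolve_left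
      (fun h4 => Finset.disjoint_left.1 hr.1 (hA h4) hy)
  rw [← e1, ← e2]

lemma numPrim_eq (S : Finset (Fin d → ℝ)) : numPrim S = (circs (S.image lift)).card := by
  rw [← Set.ncard_coe_finset]
  unfold numPrim
  refine Set.ncard_congr (fun X _ => (Sym2.lift ⟨fun A B => A ∪ B, fun A B => Finset.union_comm A B⟩ X).image
    lift) ?_ ?_ ?_
  · rintro X ⟨A, B, rfl, h⟩
    simp only [Sym2.lift_mk, Finset.mem_coe, mem_circs]
    exact ⟨Finset.image_subset_image (Finset.union_subset h.1 h.2.1), (circ_lift _).2 h.circ⟩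
  · rintro X Y ⟨A, B, rfl, h⟩ ⟨A', B', rfl, h'⟩ e
    simp only [Sym2.lift_mk] at e
    exact prim_unique h h' (Finset.image_injective lift_inj e)
  · intro C hC
    obtain ⟨h1, h2⟩ := mem_circs.1 (Finset.mem_coe.1 hC)
    obtain ⟨T, hT, rfl⟩ := Finset.subset_image_iff.1 h1
    obtain ⟨A, B, h3, rfl⟩ := circ_prim hT ((circ_lift T).1 h2)
    exact ⟨s(A, B), ⟨A, B, rfl, h3⟩, by simp only [Sym2.lift_mk]⟩

lemma minPrim_eq (s n : ℕ)
    (hup : ∃ S : Finset (ℝ × (Fin d → ℝ)), (∀ x ∈ S, x.1 = 1) ∧ S.card = s ∧ (circs S).card ≤ n)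
    (hlow : ∀ S : Finset (ℝ × (Fin d → ℝ)), (∀ x ∈ S, x.1 = 1) → S.card = s →
      n ≤ (circs S).card) : minPrim d s = n := by
  obtain ⟨S, h1, h2, h3⟩ := hup
  have e : (S.image Prod.snd).image lift = S := by
    rw [Finset.image_image]
    conv_rhs => rw [← Finset.image_id (s := S)]
    refine Finset.image_congr (fun x hx => ?_)
    exact Prod.ext (h1 x hx).symm rfl
  refine IsLeast.csInf_eq ⟨⟨S.image Prod.snd, ?_, ?_⟩, ?_⟩
  · rw [← Finset.card_image_of_injective _ lift_inj, e, h2]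
  · rw [numPrim_eq, e]
    exact le_antisymm h3 (hlow S h1 h2)
  · rintro _ ⟨S', h4, rfl⟩
    rw [numPrim_eq]
    refine hlow _ (fun x hx => ?_) (by rw [Finset.card_image_of_injective _ lift_inj, h4])
    obtain ⟨y, -, rfl⟩ := Finset.mem_image.1 hx
    rfl

lemma aff_iff {ι : Type} (p : ι → (Fin d → ℝ)) :
    AffineIndependent ℝ p ↔ LinearIndependent ℝ (fun i => lift (p i)) := by
  rw [affineIndependent_iff, linearIndependent_iff']
  refine forall_congr' (fun s => forall_congr' (fun w => ?_))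
  have : ∑ i ∈ s, w i • lift (p i) = 0 ↔ s.sum w = 0 ∧ ∑ i ∈ s, w i • p i = 0 := by
    rw [Prod.ext_iff]
    simp [Prod.fst_sum, Prod.snd_sum, lift]
  rw [this, and_imp]

lemma mem_line_iff (a b x : Fin d → ℝ) : x ∈ affineSpan ℝ ({a, b} : Set (Fin d → ℝ)) ↔
    ∃ s t : ℝ, lift x = s • lift a + t • lift b := by
  rw [mem_affineSpan_pair_iff_exists_lineMap_eq]
  constructor
  · rintro ⟨r, rfl⟩
    refine ⟨1 - r, r, Prod.ext ?_ ?_⟩
    · simp [lift]
    · simp [lift, AffineMap.lineMap_apply_module]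
  · rintro ⟨s, t, h⟩
    have h1 : 1 = s + t := by simpa [lift] using congrArg Prod.fst h
    have h2 : x = s • a + t • b := by simpa [lift] using congrArg Prod.snd h
    refine ⟨t, ?_⟩
    rw [AffineMap.lineMap_apply_module, h2, show 1 - t = s by linarith]

lemma onL_iff {k : ℕ} (F : Frame (ℝ × (Fin d → ℝ)) k) {i : Fin k} {a b : Fin d → ℝ}
    (ha : F.u i = lift a) (hb : F.v i = lift b) (x : Fin d → ℝ) :
    F.OnL i (lift x) ↔ x ∈ affineSpan ℝ ({a, b} : Set (Fin d → ℝ)) := by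
  rw [mem_line_iff, ← ha, ← hb]
  exact ⟨fun h => ⟨_, _, h⟩, fun ⟨_, _, h⟩ => F.onL_of_eq h⟩

lemma card_L {k : ℕ} (F : Frame (ℝ × (Fin d → ℝ)) k) {i : Fin k} {a b : Fin d → ℝ}
    (ha : F.u i = lift a) (hb : F.v i = lift b) (S : Finset (Fin d → ℝ)) :
    (F.L (S.image lift) i).card = onLine S a b := by
  unfold onLine
  rw [← Set.ncard_coe_finset, ← Set.ncard_image_of_injective _ lift_inj]
  congr 1
  ext y
  simp only [Finset.mem_coe, F.mem_L, Finset.mem_image, Set.mem_image, Set.mem_ofPred_eq]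
  constructor
  · rintro ⟨⟨x, hx, rfl⟩, h⟩
    exact ⟨x, ⟨hx, (onL_iff F ha hb x).1 h⟩, rfl⟩
  · rintro ⟨x, ⟨hx, h⟩, rfl⟩
    exact ⟨⟨x, hx, rfl⟩, (onL_iff F ha hb x).2 h⟩

lemma lift_one (S : Finset (Fin d → ℝ)) :
    ∀ x ∈ S.image lift, (LinearMap.fst ℝ ℝ (Fin d → ℝ)) x = 1 := by
  intro x hx
  obtain ⟨y, -, rfl⟩ := Finset.mem_image.1 hx
  rfl

lemma mem_lift {S : Finset (Fin d → ℝ)} {x : Fin d → ℝ} : lift x ∈ S.image lift ↔ x ∈ S :=
  Function.Injective.mem_finset_image lift_inj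

lemma odd_of_frame {k : ℕ} (S : Finset (Fin d → ℝ)) (F : Frame (ℝ × (Fin d → ℝ)) k)
    (h1 : ∀ i, F.u i ∈ S.image lift ∧ F.v i ∈ S.image lift) (h2 : S.image lift ⊆ F.B (S.image lift))
    (h3 : ∀ i, S.card / k ≤ (F.L (S.image lift) i).card ∧
      (F.L (S.image lift) i).card ≤ S.card / k + 1) : OddExtremal k S := by
  choose a _ ha using fun i => Finset.mem_image.1 (h1 i).1
  choose b _ hb using fun i => Finset.mem_image.1 (h1 i).2
  refine ⟨a, b, ?_, fun x hx => ?_, fun i => ?_⟩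
  · rw [aff_iff, Fintype.linearIndependent_iff]
    intro c hc
    rw [Fintype.sum_sum_type] at hc
    simp only [Sum.elim_inl, Sum.elim_inr, ha, hb] at hc
    rintro (i | i)
    · simpa [F.fu, F.fv] using congrArg (F.f i) hc
    · simpa [F.gu, F.gv] using congrArg (F.g i) hc
  · obtain ⟨i, hi⟩ := F.mem_B.1 (h2 (mem_lift.2 hx))
    exact ⟨i, (onL_iff F (ha i).symm (hb i).symm x).1 (F.mem_L.1 hi).2⟩
  · rw [← card_L F (ha i).symm (hb i).symm]
    exact h3 i

lemma odd_upper {k : ℕ} (S : Finset (Fin d → ℝ)) (h : OddExtremal k S) :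
    (circs (S.image lift)).card ≤ T k S.card := by
  obtain ⟨a, b, h1, h2, h3⟩ := h
  obtain ⟨δ, hδ⟩ := exists_dual ((aff_iff _).1 h1)
  let F : Frame (ℝ × (Fin d → ℝ)) k :=
    { u := fun i => lift (a i)
      v := fun i => lift (b i)
      f := fun i => δ (Sum.inl i)
      g := fun i => δ (Sum.inr i)
      fu := fun i i' => by simpa using hδ (Sum.inl i) (Sum.inl i')
      fv := fun i i' => by simpa using hδ (Sum.inl i) (Sum.inr i')
      gu := fun i i' => by simpa using hδ (Sum.inr i) (Sum.inl i')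
      gv := fun i i' => by simpa using hδ (Sum.inr i) (Sum.inr i') }
  have hB : S.image lift ⊆ F.B (S.image lift) := by
    intro y hy
    obtain ⟨x, hx, rfl⟩ := Finset.mem_image.1 hy
    obtain ⟨i, hi⟩ := h2 x hx
    exact F.mem_B.2 ⟨i, F.mem_L.2 ⟨hy, (onL_iff F rfl rfl x).2 hi⟩⟩
  have e : F.B (S.image lift) = S.image lift := Finset.Subset.antisymm (fun x hx => by
    obtain ⟨i, hi⟩ := F.mem_B.1 hx
    exact (F.mem_L.1 hi).1) hB
  have hc := F.card_B _ (lift_one S)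
  rw [e, Finset.card_image_of_injective _ lift_inj] at hc
  rw [← sum_balanced k S.card _ hc.symm (fun i => by rw [card_L F rfl rfl]; exact h3 i)]
  exact F.upper0 _ (lift_one S) hB

lemma even_of_frame {k : ℕ} (S : Finset (Fin d → ℝ)) (F : Frame (ℝ × (Fin d → ℝ)) k)
    (p q c : ℝ × (Fin d → ℝ)) (i0 : Fin k)
    (h1 : ∀ i, F.u i ∈ S.image lift ∧ F.v i ∈ S.image lift) (hp : p ∈ S.image lift)
    (hq : q ∈ S.image lift) (hne : p ≠ q) (hpU : ¬ F.InU p) (hqU : ¬ F.InU q)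
    (h2 : ∀ x ∈ S.image lift, x ∈ F.B (S.image lift) ∨ x = p ∨ x = q)
    (hc : c ∈ F.L (S.image lift) i0) (hab : ∃ a b : ℝ, a • p + b • q = c)
    (h4 : (F.L (S.image lift) i0).card = (S.card - 2) / k)
    (h3 : ∀ i, (S.card - 2) / k ≤ (F.L (S.image lift) i).card ∧
      (F.L (S.image lift) i).card ≤ (S.card - 2) / k + 1) : EvenExtremal k S := by
  choose a _ ha using fun i => Finset.mem_image.1 (h1 i).1
  choose b _ hb using fun i => Finset.mem_image.1 (h1 i).2
  obtain ⟨p, hp', rfl⟩ := Finset.mem_image.1 hp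
  obtain ⟨q, hq', rfl⟩ := Finset.mem_image.1 hq
  obtain ⟨hc1, hc2⟩ := F.mem_L.1 hc
  obtain ⟨c, hc1', rfl⟩ := Finset.mem_image.1 hc1
  obtain ⟨s, t, hst⟩ := hab
  refine ⟨a, b, p, q, c, i0, ?_, hp', hq', hc1', fun e => hne (by rw [e]), fun e => ?_,
    (mem_line_iff _ _ _).2 ⟨s, t, hst.symm⟩, (onL_iff F (ha i0).symm (hb i0).symm c).1 hc2,
    fun x hx => ?_, ?_, fun i => ?_⟩
  · rw [aff_iff, Fintype.linearIndependent_iff]
    intro w hw
    rw [Fintype.sum_sum_type, Fintype.sum_sum_type] at hw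
    simp only [Sum.elim_inl, Sum.elim_inr, ha, hb, Finset.univ_unique, Finset.sum_singleton] at hw
    have h0 : w (Sum.inr default) = 0 := by
      by_contra hn
      refine hpU (Frame.InU.of_smul F ?_ hn)
      rw [eq_neg_of_add_eq_zero_right hw, ← neg_one_smul ℝ]
      refine Frame.InU.smul F (Frame.InU.add F ?_ ?_) _
      · exact Finset.sum_induction _ F.InU (fun _ _ ha hb => Frame.InU.add F ha hb) F.inU_zero
          (fun i _ => Frame.InU.smul F (Frame.OnL.inU F (F.onL_u i)) _)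
      · exact Finset.sum_induction _ F.InU (fun _ _ ha hb => Frame.InU.add F ha hb) F.inU_zero
          (fun i _ => Frame.InU.smul F (Frame.OnL.inU F (F.onL_v i)) _)
    rw [h0, zero_smul, add_zero] at hw
    rintro ((i | i) | i)
    · simpa [F.fu, F.fv] using congrArg (F.f i) hw
    · simpa [F.gu, F.gv] using congrArg (F.g i) hw
    · exact h0
  · exact hqU (e ▸ Frame.OnL.inU F hc2)
  · rcases h2 _ (mem_lift.2 hx) with h5 | h5 | h5
    · obtain ⟨i, hi⟩ := F.mem_B.1 h5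
      exact Or.inr (Or.inr ⟨i, (onL_iff F (ha i).symm (hb i).symm x).1 (F.mem_L.1 hi).2⟩)
    · exact Or.inl (lift_inj h5)
    · exact Or.inr (Or.inl (lift_inj h5))
  · rw [← card_L F (ha i0).symm (hb i0).symm]
    exact h4
  · rw [← card_L F (ha i).symm (hb i).symm]
    exact h3 i

lemma even_upper {k : ℕ} (S : Finset (Fin d → ℝ)) (h : EvenExtremal k S) :
    (circs (S.image lift)).card ≤ U k (S.card - 2) := by
  obtain ⟨a, b, p, q, c, i0, h1, hp, hq, hc, hpq, hcq, hc1, hc2, h2, h4, h3⟩ := h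
  obtain ⟨δ, hδ⟩ := exists_dual ((aff_iff _).1 h1)
  let F : Frame (ℝ × (Fin d → ℝ)) k :=
    { u := fun i => lift (a i)
      v := fun i => lift (b i)
      f := fun i => δ (Sum.inl (Sum.inl i))
      g := fun i => δ (Sum.inl (Sum.inr i))
      fu := fun i i' => by simpa using hδ (Sum.inl (Sum.inl i)) (Sum.inl (Sum.inl i'))
      fv := fun i i' => by simpa using hδ (Sum.inl (Sum.inl i)) (Sum.inl (Sum.inr i'))
      gu := fun i i' => by simpa using hδ (Sum.inl (Sum.inr i)) (Sum.inl (Sum.inl i'))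
      gv := fun i i' => by simpa using hδ (Sum.inl (Sum.inr i)) (Sum.inl (Sum.inr i')) }
  let χ := δ (Sum.inr ())
  have hχu : ∀ i, χ (F.u i) = 0 := fun i => by simpa using hδ (Sum.inr ()) (Sum.inl (Sum.inl i))
  have hχv : ∀ i, χ (F.v i) = 0 := fun i => by simpa using hδ (Sum.inr ()) (Sum.inl (Sum.inr i))
  have hχp : χ (lift p) = 1 := by simpa using hδ (Sum.inr ()) (Sum.inr ())
  have hχ : ∀ i x, F.OnL i x → χ x = 0 := by
    intro i x hx
    unfold Frame.OnL at hx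
    rw [hx]; simp [hχu, hχv]
  have hcL : F.OnL i0 (lift c) := (onL_iff F rfl rfl c).2 hc2
  obtain ⟨s, t, hst⟩ := (mem_line_iff _ _ _).1 hc1
  have hχq : χ (lift q) ≠ 0 := by
    intro e
    have e1 := hχ i0 _ hcL
    rw [hst, map_add, map_smul, map_smul, hχp, e] at e1
    have hs : s = 0 := by simpa using e1
    have ht : 1 = s + t := by simpa [lift] using congrArg Prod.fst hst
    rw [hs, zero_add] at ht
    rw [hs, ← ht, zero_smul, zero_add, one_smul] at hst
    exact hcq (lift_inj hst)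
  have hne : lift p ≠ lift q := fun e => hpq (lift_inj e)
  have hB : ∀ y ∈ S.image lift, y ∈ F.B (S.image lift) ∨ y = lift p ∨ y = lift q := by
    intro y hy
    obtain ⟨x, hx, rfl⟩ := Finset.mem_image.1 hy
    rcases h2 x hx with rfl | rfl | ⟨i, hi⟩
    · exact Or.inr (Or.inl rfl)
    · exact Or.inr (Or.inr rfl)
    · exact Or.inl (F.mem_B.2 ⟨i, F.mem_L.2 ⟨hy, (onL_iff F rfl rfl x).2 hi⟩⟩)
  have e : S.image lift = F.B (S.image lift) ∪ {lift p, lift q} := by
    ext y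
    simp only [Finset.mem_union, Finset.mem_insert, Finset.mem_singleton]
    refine ⟨hB y, ?_⟩
    rintro (h5 | rfl | rfl)
    · obtain ⟨i, hi⟩ := F.mem_B.1 h5
      exact (F.mem_L.1 hi).1
    · exact mem_lift.2 hp
    · exact mem_lift.2 hq
  have hdis : Disjoint (F.B (S.image lift)) {lift p, lift q} := by
    rw [Finset.disjoint_right]
    intro y hy hyB
    obtain ⟨i, hi⟩ := F.mem_B.1 hyB
    have := hχ i y (F.mem_L.1 hi).2
    simp only [Finset.mem_insert, Finset.mem_singleton] at hy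
    rcases hy with rfl | rfl
    · rw [hχp] at this; exact one_ne_zero this
    · exact hχq this
  have hcard := congrArg Finset.card e
  rw [Finset.card_union_of_disjoint hdis, Finset.card_pair hne, F.card_B _ (lift_one S),
    Finset.card_image_of_injective _ lift_inj] at hcard
  have h5 := sum_balanced k (S.card - 2) (fun i => (F.L (S.image lift) i).card) (by omega)
    (fun i => by rw [card_L F rfl rfl]; exact h3 i)
  have h6 := F.upper2 _ (lift_one S) hne hB χ hχ (by rw [hχp]; exact one_ne_zero) hχq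
    (F.mem_L.2 ⟨mem_lift.2 hc, hcL⟩) hst.symm
  rw [card_L F (i := i0) rfl rfl, h4] at h6
  unfold U
  omega

end aux

theorem result (k : ℕ) (hk : 1 ≤ k) : ∃ s₀ : ℕ, ∀ s : ℕ, s₀ ≤ s →
    minPrim (2 * k - 1) s = k * (s / k).choose 3 + (s % k) * (s / k).choose 2 ∧
    minPrim (2 * k) s = k * ((s - 2) / k).choose 3 + ((s - 2) % k) * ((s - 2) / k).choose 2
      + 1 + ((s - 2) / k - 1).choose 2 ∧
    (∀ S : Finset (Fin (2 * k - 1) → ℝ), S.card = s →
      (numPrim S = minPrim (2 * k - 1) s ↔ OddExtremal k S)) ∧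
    (∀ S : Finset (Fin (2 * k) → ℝ), S.card = s →
      (numPrim S = minPrim (2 * k) s ↔ EvenExtremal k S)) := by
  have r1 : Module.finrank ℝ (ℝ × (Fin (2 * k - 1) → ℝ)) ≤ 2 * k := by
    simp [Module.finrank_prod]; omega
  have r2 : Module.finrank ℝ (ℝ × (Fin (2 * k) → ℝ)) ≤ 2 * k + 1 := by
    simp [Module.finrank_prod]; omega
  obtain ⟨N1, H1⟩ := lower_odd k hk (LinearMap.fst ℝ ℝ _) r1
  obtain ⟨N2, H2⟩ := lower_even k hk (LinearMap.fst ℝ ℝ _) r2
  obtain ⟨N3, H3⟩ := extremal_odd k hk (LinearMap.fst ℝ ℝ _) r1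
  obtain ⟨N4, H4⟩ := extremal_even k hk (LinearMap.fst ℝ ℝ _) r2
  refine ⟨N1 + N2 + N3 + N4 + k + 2, fun s hs => ?_⟩
  have e1 : minPrim (2 * k - 1) s = T k s := by
    refine minPrim_eq s (T k s) (upper_odd _ k s hk (by omega)) (fun S h1 h2 => ?_)
    rw [← h2]
    exact H1 S h1 (by omega)
  have e2 : minPrim (2 * k) s = U k (s - 2) := by
    refine minPrim_eq s (U k (s - 2)) ?_ (fun S h1 h2 => ?_)
    · have := upper_even (2 * k) k (s - 2) hk le_rfl (by omega)
      rwa [Nat.sub_add_cancel (by omega)] at this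
    · rw [← h2]
      exact H2 S h1 (by omega)
  refine ⟨e1, e2, fun S hS => ?_, fun S hS => ?_⟩
  · have hc : (S.image lift).card = S.card := Finset.card_image_of_injective _ lift_inj
    rw [e1, numPrim_eq, ← hS]
    constructor
    · intro h
      obtain ⟨F, f1, f2, f3⟩ := H3 _ (lift_one S) (by omega) (by rw [hc]; exact h.le)
      rw [hc] at f3
      exact odd_of_frame S F f1 f2 f3
    · intro h
      refine le_antisymm (odd_upper S h) ?_
      rw [← hc]
      exact H1 _ (lift_one S) (by omega)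
  · have hc : (S.image lift).card = S.card := Finset.card_image_of_injective _ lift_inj
    rw [e2, numPrim_eq, ← hS]
    constructor
    · intro h
      obtain ⟨F, p, q, c, i0, f1, f2, f3, f4, f5, f6, f7, f8, f9, f10, f11⟩ :=
        H4 _ (lift_one S) (by omega) (by rw [hc]; exact h.le)
      rw [hc] at f10 f11
      exact even_of_frame S F p q c i0 f1 f2 f3 f4 f5 f6 f7 f8 f9 f10 f11
    · intro h
      refine le_antisymm (even_upper S h) ?_
      rw [← hc]
      exact H2 _ (lift_one S) (by omega)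

end Pool.Agent.Results.MP_bb0bb6_co.Large
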